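import Pool.Agent.E8helper61.EF.Stm

/-! Project EF, piece MOVE. -/

set_option autoImplicit false

open Finset

namespace Pool.Agent.E8helper33.EF

open Pool.Agent.E8helper61.EF

theorem move : MoveStatement := by
  classical
  intro n A hD hS B hB X Y
  induction Y using Finset.induction_on generalizing B X with
  | empty =>
    intro _ _ _ _
    rw [Finset.union_empty]
    exact hD B hB _ Finset.sdiff_subset
  | insert y Y hyY ih =>
    intro hX hc hdis hlt
    rw [Finset.card_insert_of_notMem hyY] at hc
    obtain ⟨x, hx⟩ : X.Nonempty := Finset.card_pos.1 (by omega)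
    have hyX : y ∉ X := fun h => lt_irrefl y (hlt y (Finset.mem_insert_self _ _) y h)
    have hyB : y ∉ B := fun h =>
      (Finset.disjoint_left.1 hdis (Finset.mem_insert_self _ _)) (Finset.mem_sdiff.2 ⟨h, hyX⟩)
    have hC := hS B hB y x (hlt y (Finset.mem_insert_self _ _) x hx) (hX hx) hyB
    have e : insert y (B.erase x) \ X.erase x = insert y (B \ X) := by
      ext z
      simp only [Finset.mem_sdiff, Finset.mem_insert, Finset.mem_erase]
      constructor
      · rintro ⟨rfl | ⟨h1, h2⟩, h3⟩
        · exact Or.inl rfl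
        · exact Or.inr ⟨h2, fun h => h3 ⟨h1, h⟩⟩
      · rintro (rfl | ⟨h1, h2⟩)
        · exact ⟨Or.inl rfl, fun h => hyX h.2⟩
        · exact ⟨Or.inr ⟨fun h => h2 (h ▸ hx), h1⟩, fun h => h2 h.2⟩
    have h := ih _ hC (X.erase x) (fun z hz => by
        rw [Finset.mem_erase] at hz
        exact Finset.mem_insert_of_mem (Finset.mem_erase.2 ⟨hz.1, hX hz.2⟩))
      (by rw [Finset.card_erase_of_mem hx]; omega)
      (by
        rw [e, Finset.disjoint_left]
        intro z hz hz2
        rcases Finset.mem_insert.1 hz2 with rfl | h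
        · exact hyY hz
        · exact (Finset.disjoint_left.1 hdis (Finset.mem_insert_of_mem hz)) h)
      (fun z hz w hw => hlt z (Finset.mem_insert_of_mem hz) w (Finset.mem_of_mem_erase hw))
    rw [e] at h
    have e2 : B \ X ∪ insert y Y = insert y (B \ X) ∪ Y := by
      rw [Finset.union_insert, Finset.insert_union]
    rw [e2]
    exact h

end Pool.Agent.E8helper33.EF
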